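import Pool.Agent.U331.UP.Paths

/-!
# Arcs through the far points of the curve oscillate many times
-/

set_option autoImplicit false

namespace Pool.Agent.U331.UP

open Set Filter Topology

theorem continuous_c : Continuous c := by unfold c; fun_prop

/-- the origin -/
def a0 : X := ⟨((0 : ℝ), (0 : ℝ)), zero_mem⟩

/-- the first point of the curve -/
noncomputable def b0 : X := ⟨q 1, q_mem le_rfl⟩

theorem exists_arc (n : ℕ) (hn : 2 ≤ n) :
    ∃ p : Path a0 b0, Function.Injective ⇑p ∧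
      ∃ τ, (p τ : ℝ × ℝ) = q n := by
  have hn' : (2 : ℝ) ≤ n := by exact_mod_cast hn
  let φ : ℝ → ℝ := fun t => n - (n - 1) * c (2 * t - 1)
  let ρ : ℝ → ℝ := fun t => c (2 * t) * r (φ t)
  have hφ1 : ∀ t, 1 ≤ φ t := by
    intro t
    have h1 := c_le_one (2 * t - 1)
    simp only [φ]; nlinarith
  have hφc : Continuous φ := by
    simp only [φ]
    exact continuous_const.sub (continuous_const.mul (continuous_c.comp (by fun_prop)))
  have hρc : Continuous ρ := by
    simp only [ρ]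
    exact (continuous_c.comp (by fun_prop)).mul (continuous_r.comp hφc)
  have hρ0 : ∀ t, 0 ≤ ρ t := fun t =>
    mul_nonneg (c_nonneg _) (by have := one_le_r (φ t); linarith)
  have hρ1 : ∀ t, ρ t ≤ r (φ t) := fun t => by
    have h1 := c_le_one (2 * t)
    have h2 := one_le_r (φ t)
    simp only [ρ]; nlinarith
  have hmem : ∀ t, (ρ t, ρ t / φ t) ∈ X := by
    intro t
    apply mem_X (hφ1 t) (hρ0 t) (hρ1 t)
    rcases le_total (2 * t) 1 with h | h
    · right
      refine ⟨n, ?_⟩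
      simp only [φ]
      rw [c_of_nonpos (by linarith : 2 * t - 1 ≤ 0)]; ring
    · left
      simp only [ρ]
      rw [c_of_one_le h, one_mul]
  let p : Path a0 b0 :=
    { toFun := fun t => ⟨(ρ t, ρ t / φ t), hmem t⟩
      continuous_toFun := by
        apply Continuous.subtype_mk
        have h1 : Continuous fun t : unitInterval => ρ t := hρc.comp continuous_subtype_val
        have h2 : Continuous fun t : unitInterval => φ t := hφc.comp continuous_subtype_val
        exact h1.prodMk (h1.div h2 fun t => by have := hφ1 t; linarith)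
      source' := by
        apply Subtype.ext
        show (ρ 0, ρ 0 / φ 0) = ((0 : ℝ), (0 : ℝ))
        have : ρ 0 = 0 := by
          simp only [ρ]; rw [c_of_nonpos (by norm_num : (2 * 0 : ℝ) ≤ 0), zero_mul]
        rw [this]; simp
      target' := by
        apply Subtype.ext
        show (ρ 1, ρ 1 / φ 1) = q 1
        have h1 : φ 1 = 1 := by
          simp only [φ]; rw [c_of_one_le (by norm_num : (1 : ℝ) ≤ 2 * 1 - 1)]; ring
        have h2 : ρ 1 = r 1 := by
          simp only [ρ]; rw [c_of_one_le (by norm_num : (1 : ℝ) ≤ 2 * 1), one_mul, h1]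
        rw [h1, h2]; unfold q; rw [max_self] }
  refine ⟨p, ?_, ⟨⟨1 / 2, by norm_num, by norm_num⟩, ?_⟩⟩
  · intro s t hst
    have h1 : (ρ s, ρ s / φ s) = (ρ t, ρ t / φ t) := congrArg Subtype.val hst
    have h2 : ρ s = ρ t := congrArg Prod.fst h1
    have h3 : ρ s / φ s = ρ t / φ t := congrArg Prod.snd h1
    have key : ∀ s t : unitInterval, ρ s = ρ t → ρ s / φ s = ρ t / φ t → s ≤ t → s = t := by
      intro s t h2 h3 hst
      have hst' : (s : ℝ) ≤ t := hst
      apply Subtype.ext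
      rcases (hρ0 s).eq_or_lt with h0 | h0
      · -- both are at the origin
        have h4 : ∀ u : unitInterval, ρ u = 0 → (u : ℝ) = 0 := by
          intro u hu
          have h5 : c (2 * u) = 0 := by
            rcases mul_eq_zero.mp hu with h | h
            · exact h
            · have := one_le_r (φ u); linarith
          by_contra hne
          have h6 : (0 : ℝ) < u := lt_of_le_of_ne u.2.1 (Ne.symm hne)
          have h7 : 0 < c (2 * u) := lt_max_of_lt_right (lt_min (by positivity) one_pos)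
          linarith
        rw [h4 s h0.symm, h4 t (h2 ▸ h0.symm)]
      · have hφs : 0 < φ s := by have := hφ1 s; linarith
        have hφt : 0 < φ t := by have := hφ1 t; linarith
        have h4 : φ s = φ t := by
          rw [← h2, div_eq_div_iff hφs.ne' hφt.ne'] at h3
          exact (mul_left_cancel₀ h0.ne' h3).symm
        have h5 : c (2 * s - 1) = c (2 * t - 1) := by
          have h6 : ((n : ℝ) - 1) * c (2 * s - 1) = (n - 1) * c (2 * t - 1) := by
            simp only [φ] at h4; linarith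
          have h7 : (n : ℝ) - 1 ≠ 0 := by intro h'; linarith
          exact mul_left_cancel₀ h7 h6
        have h6 : c (2 * s) = c (2 * t) := by
          have h7 : c (2 * s) * r (φ s) = c (2 * t) * r (φ t) := h2
          rw [h4] at h7
          have h8 : r (φ t) ≠ 0 := by have := one_le_r (φ t); intro h'; linarith
          exact mul_right_cancel₀ h8 h7
        have s0 : (0 : ℝ) ≤ s := s.2.1
        have t0 : (0 : ℝ) ≤ t := t.2.1
        have s1 : (s : ℝ) ≤ 1 := s.2.2
        have t1 : (t : ℝ) ≤ 1 := t.2.2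
        rcases le_total (2 * (t : ℝ)) 1 with ht | ht
        · rw [c_of_mem (by linarith) (by linarith), c_of_mem (by linarith) ht] at h6
          linarith
        · rcases le_total (2 * (s : ℝ)) 1 with hs | hs
          · rw [c_of_nonpos (by linarith), c_of_mem (by linarith) (by linarith)] at h5
            rw [c_of_mem (by linarith) hs, c_of_one_le ht] at h6
            linarith
          · rw [c_of_mem (by linarith) (by linarith), c_of_mem (by linarith) (by linarith)] at h5
            linarith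
    rcases le_total s t with h | h
    · exact key s t h2 h3 h
    · exact (key t s h2.symm h3.symm h).symm
  · show (ρ (1 / 2), ρ (1 / 2) / φ (1 / 2)) = q n
    have h1 : φ (1 / 2) = n := by
      simp only [φ]; rw [c_of_nonpos (by norm_num : (2 * (1 / 2) - 1 : ℝ) ≤ 0)]; ring
    have h2 : ρ (1 / 2) = r n := by
      simp only [ρ]; rw [c_of_one_le (by norm_num : (1 : ℝ) ≤ 2 * (1 / 2)), one_mul, h1]
    rw [h1, h2]; unfold q; rw [max_eq_left (by linarith)]

/-- crossing of a radial line at a slope which carries no blade -/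
theorem cross {p : Path a0 b0} (hp : Function.Injective ⇑p) {ψ : ℝ} (hψ : 1 < ψ)
    (hn : ∀ n : ℕ, ψ ≠ n) {s s' : unitInterval} (hs : s < s')
    (h1 : (p s : ℝ × ℝ).2 < (p s : ℝ × ℝ).1 / ψ) (h2 : (p s' : ℝ × ℝ).1 / ψ < (p s' : ℝ × ℝ).2) :
    ∃ t, s < t ∧ t < s' ∧ (p t : ℝ × ℝ) = q ψ := by
  let G : ℝ → ℝ := fun t => (p.extend t : ℝ × ℝ).2 - (p.extend t : ℝ × ℝ).1 / ψ
  have hE : Continuous fun t : ℝ => (p.extend t : ℝ × ℝ) :=
    continuous_subtype_val.comp p.continuous_extend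
  have hG : Continuous G := by
    simp only [G]
    exact (continuous_snd.comp hE).sub ((continuous_fst.comp hE).div_const ψ)
  have hGs : G s < 0 := by
    simp only [G]; rw [Path.extend_apply p s.2]
    have : (⟨(s : ℝ), s.2⟩ : unitInterval) = s := rfl
    rw [this]; linarith
  have hGs' : 0 < G s' := by
    simp only [G]; rw [Path.extend_apply p s'.2]
    have : (⟨(s' : ℝ), s'.2⟩ : unitInterval) = s' := rfl
    rw [this]; linarith
  have hss' : (s : ℝ) ≤ s' := hs.le
  obtain ⟨t, ht, hGt⟩ := intermediate_value_Icc hss' hG.continuousOn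
    (⟨hGs.le, hGs'.le⟩ : (0 : ℝ) ∈ Icc (G s) (G s'))
  have htI : t ∈ unitInterval := ⟨s.2.1.trans ht.1, ht.2.trans s'.2.2⟩
  have hts : (s : ℝ) < t := lt_of_le_of_ne ht.1 (by rintro rfl; linarith)
  have hts' : t < (s' : ℝ) := lt_of_le_of_ne ht.2 (by rintro rfl; linarith)
  refine ⟨⟨t, htI⟩, hts, hts', ?_⟩
  have hz : (p ⟨t, htI⟩ : ℝ × ℝ).2 = (p ⟨t, htI⟩ : ℝ × ℝ).1 / ψ := by
    have : G t = (p ⟨t, htI⟩ : ℝ × ℝ).2 - (p ⟨t, htI⟩ : ℝ × ℝ).1 / ψ := by
      simp only [G]; rw [Path.extend_apply p htI]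
    linarith
  have hψ0 : 0 < ψ := by linarith
  rcases structure_X (p ⟨t, htI⟩).2 with ⟨-, -, h3⟩ | ⟨ρ, φ, hφ, hρ0, -, h, h4⟩
  · exfalso
    have h4 : (p ⟨t, htI⟩ : ℝ × ℝ).1 = 0 := by
      rw [h3] at hz
      have := (eq_div_iff hψ0.ne').mp hz
      linarith
    have h5 : p ⟨t, htI⟩ = p 0 := by
      rw [p.source]
      apply Subtype.ext
      exact Prod.ext h4 h3
    have h6 : t = 0 := congrArg Subtype.val (hp h5)
    have := s.2.1
    linarith
  · rw [h4] at hz
    have hφ0 : 0 < φ := by linarith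
    have h5 : ρ / φ = ρ / ψ := hz
    have h6 : φ = ψ := by
      rw [div_eq_div_iff hφ0.ne' hψ0.ne'] at h5
      exact (mul_left_cancel₀ hρ0.ne' h5).symm
    subst h6
    have h7 : ρ = r φ := h.resolve_right fun ⟨n, hn'⟩ => hn n hn'
    rw [h4, h7]; unfold q; rw [max_eq_left hφ]

/-- the slope of the curve -/
theorem q_slope {φ ψ : ℝ} (hφ : 1 ≤ φ) (h : φ < ψ) : (q φ).1 / ψ < (q φ).2 := by
  unfold q
  rw [max_eq_left hφ]
  have := one_le_r φ
  exact div_lt_div_of_pos_left (by linarith) (by linarith) h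

theorem q_slope' {φ ψ : ℝ} (hψ : 1 ≤ ψ) (h : ψ < φ) : (q φ).2 < (q φ).1 / ψ := by
  unfold q
  rw [max_eq_left (by linarith)]
  have := one_le_r φ
  exact div_lt_div_of_pos_left (by linarith) (by linarith) h

theorem not_nat {m : ℕ} {x : ℝ} (h0 : 0 < x) (h1 : x < 1) (n : ℕ) : (m : ℝ) + x ≠ n := by
  intro h
  have h2 : (m : ℝ) < n := by linarith
  have h3 : (n : ℝ) < m + 1 := by linarith
  have h4 : m < n := by exact_mod_cast h2
  have h5 : n < m + 1 := by exact_mod_cast h3
  omega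

section

variable {p : Path a0 b0} (hp : Function.Injective ⇑p) {n : ℕ} {τ : unitInterval}
  (hτ : (p τ : ℝ × ℝ) = q n)

include hp hτ

theorem visit {ψ : ℝ} (hψ : 1 < ψ) (hψn : ψ < n) (hn : ∀ k : ℕ, ψ ≠ k) :
    ∃ t, τ < t ∧ (p t : ℝ × ℝ) = q ψ := by
  have hτ1 : τ < 1 := by
    rcases lt_or_eq_of_le (unitInterval.le_one τ) with h | h
    · exact h
    · exfalso
      have h' : τ = 1 := Subtype.ext h
      rw [h', p.target] at hτ
      have h1 := q_slope (le_refl (1 : ℝ)) (by linarith : (1 : ℝ) < n)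
      have h2 : (q 1) = q n := hτ
      rw [h2] at h1
      unfold q at h1
      rw [max_eq_left (by linarith)] at h1
      exact lt_irrefl _ h1
  obtain ⟨t, h1, -, h3⟩ := cross hp hψ hn hτ1 (by rw [hτ]; exact q_slope' hψ.le hψn)
    (by rw [p.target]; exact q_slope le_rfl hψ)
  exact ⟨t, h1, h3⟩

theorem visit_lt {ψ₁ ψ₂ : ℝ} (h2 : 1 < ψ₂) (h21 : ψ₂ < ψ₁) (h1n : ψ₁ < n)
    (hn : ∀ k : ℕ, ψ₁ ≠ k) {t₁ t₂ : unitInterval} (ht₁ : (p t₁ : ℝ × ℝ) = q ψ₁)
    (ht₂ : (p t₂ : ℝ × ℝ) = q ψ₂) (hτt : τ < t₂) : t₁ < t₂ := by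
  obtain ⟨t, -, h4, h5⟩ := cross hp (h2.trans h21) hn hτt
    (by rw [hτ]; exact q_slope' (by linarith) h1n) (by rw [ht₂]; exact q_slope h2.le h21)
  have : t = t₁ := hp (Subtype.ext (h5.trans ht₁.symm))
  rwa [← this]

end

theorem not_uniformly_arcwise : ¬ ∃ P : Set (Path a0 b0),
    (∀ p ∈ P, Function.Injective ⇑p) ∧
    (∀ ε : ℝ, ε > 0 → ∃ n : ℕ, ∀ p ∈ P, ∃ t : Fin (n + 1) → unitInterval,
        t 0 = 0 ∧ t (Fin.last n) = 1 ∧ StrictMono t ∧
        ∀ i : Fin n, Metric.diam (⇑p '' Set.Icc (t i.castSucc) (t i.succ)) ≤ ε) ∧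
    (⋃ p ∈ P, Set.range ⇑p) =
      ⋃ (q : Path a0 b0) (_ : Function.Injective ⇑q), Set.range ⇑q := by
  rintro ⟨P, hinj, huni, hcov⟩
  obtain ⟨N, hN⟩ := huni (1 / 2) (by norm_num)
  obtain ⟨p', hp', τ', hτ'⟩ := exists_arc (N + 3) (by omega)
  have h1 : p' τ' ∈ ⋃ p ∈ P, Set.range ⇑p := by
    rw [hcov]
    exact Set.mem_iUnion₂.mpr ⟨p', hp', τ', rfl⟩
  obtain ⟨p, hpP, τ, hτ0⟩ := Set.mem_iUnion₂.mp h1
  have hp := hinj p hpP
  have hτ : (p τ : ℝ × ℝ) = q ((N + 3 : ℕ) : ℝ) := by rw [hτ0, hτ']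
  obtain ⟨t, t0, t1, tmono, tdiam⟩ := hN p hpP
  -- the times of the visits
  have hα : ∀ m : Fin (N + 2), ∃ s, τ < s ∧ (p s : ℝ × ℝ) = q (((m : ℕ) + 1 : ℕ) + 1 / 2) := by
    intro m
    have h2 : (m : ℕ) + 2 ≤ N + 3 := by omega
    have h3 : ((m : ℕ) : ℝ) + 2 ≤ ((N + 3 : ℕ) : ℝ) := by exact_mod_cast h2
    apply visit hp hτ
    · push_cast; linarith [(Nat.cast_nonneg (m : ℕ) : (0 : ℝ) ≤ ((m : ℕ) : ℝ))]
    · push_cast at h3 ⊢; linarith
    · exact not_nat (by norm_num) (by norm_num)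
  have hβ : ∀ m : Fin (N + 2), ∃ s, τ < s ∧ (p s : ℝ × ℝ) = q (((m : ℕ) + 1 : ℕ) + 1 / 4) := by
    intro m
    have h2 : (m : ℕ) + 2 ≤ N + 3 := by omega
    have h3 : ((m : ℕ) : ℝ) + 2 ≤ ((N + 3 : ℕ) : ℝ) := by exact_mod_cast h2
    apply visit hp hτ
    · push_cast; linarith [(Nat.cast_nonneg (m : ℕ) : (0 : ℝ) ≤ ((m : ℕ) : ℝ))]
    · push_cast at h3 ⊢; linarith
    · exact not_nat (by norm_num) (by norm_num)
  choose α hατ hα using hα
  choose β hβτ hβ using hβ
  have hαβ : ∀ m, α m < β m := by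
    intro m
    have h2 : (m : ℕ) + 2 ≤ N + 3 := by omega
    have h3 : ((m : ℕ) : ℝ) + 2 ≤ ((N + 3 : ℕ) : ℝ) := by exact_mod_cast h2
    have h4 : (0 : ℝ) ≤ ((m : ℕ) : ℝ) := Nat.cast_nonneg _
    refine visit_lt hp hτ ?_ ?_ ?_ ?_ (hα m) (hβ m) (hβτ m)
    · push_cast; linarith
    · linarith
    · push_cast at h3 ⊢; linarith
    · exact not_nat (by norm_num) (by norm_num)
  have hβα : ∀ m m', m < m' → β m' < α m := by
    intro m m' hmm
    have h2 : (m' : ℕ) + 2 ≤ N + 3 := by omega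
    have h3 : ((m' : ℕ) : ℝ) + 2 ≤ ((N + 3 : ℕ) : ℝ) := by exact_mod_cast h2
    have h4 : (0 : ℝ) ≤ ((m : ℕ) : ℝ) := Nat.cast_nonneg _
    have h5 : ((m : ℕ) : ℝ) + 1 ≤ ((m' : ℕ) : ℝ) := by exact_mod_cast hmm
    refine visit_lt hp hτ ?_ ?_ ?_ ?_ (hβ m') (hα m) (hατ m)
    · push_cast; linarith
    · push_cast; linarith
    · push_cast at h3 ⊢; linarith
    · exact not_nat (by norm_num) (by norm_num)
  have hdist : ∀ m, 1 ≤ dist (p (α m)) (p (β m)) := by
    intro m
    rw [Subtype.dist_eq, hα m, hβ m, Prod.dist_eq]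
    refine le_trans ?_ (le_max_left _ _)
    show 1 ≤ |r (((m : ℕ) + 1 : ℕ) + 1 / 2) - r (((m : ℕ) + 1 : ℕ) + 1 / 4)|
    rw [r_half, r_quarter]; norm_num
  -- a partition point in each of the intervals
  have hpt : ∀ m : Fin (N + 2), ∃ i : Fin N, t i.castSucc ≤ α m ∧ α m < t i.succ := by
    intro m
    by_contra hcon
    push Not at hcon
    have h2 : ∀ i : Fin (N + 1), t i ≤ α m := by
      intro i
      induction i using Fin.induction with
      | zero => rw [t0]; exact unitInterval.nonneg' 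
      | succ i ih => exact hcon i ih
    have h3 := h2 (Fin.last N)
    rw [t1] at h3
    exact absurd ((hαβ m).trans_le unitInterval.le_one') (not_lt.mpr h3)
  choose idx hidx1 hidx2 using hpt
  have hidx3 : ∀ m, t (idx m).succ < β m := by
    intro m
    by_contra hcon
    push Not at hcon
    have h2 : dist (p (α m)) (p (β m)) ≤
        Metric.diam (⇑p '' Set.Icc (t (idx m).castSucc) (t (idx m).succ)) := by
      apply Metric.dist_le_diam_of_mem
      · exact Metric.isBounded_of_compactSpace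
      · exact ⟨α m, ⟨hidx1 m, (hidx2 m).le⟩, rfl⟩
      · exact ⟨β m, ⟨(hidx1 m).trans (hαβ m).le, hcon⟩, rfl⟩
    have := hdist m
    have := tdiam (idx m)
    linarith
  have hinj' : Function.Injective idx := by
    have key : ∀ m m', m < m' → idx m ≠ idx m' := by
      intro m m' hmm h
      have h2 := hidx3 m'
      rw [← h] at h2
      exact absurd (h2.trans (hβα m m' hmm)) (not_lt.mpr (hidx2 m).le)
    intro m m' h
    rcases lt_trichotomy m m' with hlt | heq | hgt
    · exact absurd h (key m m' hlt)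
    · exact heq
    · exact absurd h.symm (key m' m hgt)
  have := Fintype.card_le_of_injective idx hinj'
  simp at this

end Pool.Agent.U331.UP
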