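import Mathlib

/-!
# A planar continuum: a ray in a wedge with radial blades

In the wedge between the directions of slopes `0` and `1` we take the curve which at slope `1/φ`
(for `φ ≥ 1`) has first coordinate `r φ`, the radial segments from the origin to the points of the
curve with integral `φ`, and the limit segment on the horizontal axis.
-/

set_option autoImplicit false

namespace Pool.Agent.U331.UP

open Set Filter Topology

/-- the first coordinate of the curve -/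
noncomputable def r (φ : ℝ) : ℝ := (3 - Real.cos (4 * Real.pi * φ)) / 2

theorem one_le_r (φ : ℝ) : 1 ≤ r φ := by
  unfold r; have := Real.cos_le_one (4 * Real.pi * φ); linarith

theorem r_le_two (φ : ℝ) : r φ ≤ 2 := by
  unfold r; have := Real.neg_one_le_cos (4 * Real.pi * φ); linarith

theorem continuous_r : Continuous r := by unfold r; fun_prop

theorem r_lip (φ ψ : ℝ) : |r φ - r ψ| ≤ 7 * |φ - ψ| := by
  have h1 := Real.abs_cos_sub_cos_le (4 * Real.pi * φ) (4 * Real.pi * ψ)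
  have h2 : r φ - r ψ = -(Real.cos (4 * Real.pi * φ) - Real.cos (4 * Real.pi * ψ)) / 2 := by
    unfold r; ring
  rw [h2, abs_div, abs_neg]
  have h3 : |4 * Real.pi * φ - 4 * Real.pi * ψ| = 4 * Real.pi * |φ - ψ| := by
    rw [← mul_sub, abs_mul, abs_of_pos (by positivity)]
  rw [h3] at h1
  have h4 : Real.pi < 3.5 := by have := Real.pi_lt_d2; linarith
  have h5 : 0 ≤ |φ - ψ| := abs_nonneg _
  rw [abs_two]
  nlinarith

theorem r_quarter (m : ℕ) : r (m + 1 / 4) = 2 := by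
  have h : 4 * Real.pi * ((m : ℝ) + 1 / 4) = Real.pi + ((2 * m : ℕ) : ℝ) * (2 * Real.pi) := by
    push_cast; ring
  unfold r
  rw [h, Real.cos_add_nat_mul_two_pi, Real.cos_pi]; norm_num

theorem r_half (m : ℕ) : r (m + 1 / 2) = 1 := by
  have h : 4 * Real.pi * ((m : ℝ) + 1 / 2) = 0 + ((2 * m + 1 : ℕ) : ℝ) * (2 * Real.pi) := by
    push_cast; ring
  unfold r
  rw [h, Real.cos_add_nat_mul_two_pi, Real.cos_zero]; norm_num

/-- the admissible pairs of inverse slope and first coordinate -/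
def T : Set (ℝ × ℝ) :=
  {w | 1 ≤ w.1 ∧ (w.2 = r w.1 ∨ ((∃ n : ℕ, w.1 = n) ∧ w.2 ≤ r w.1))}

theorem isClosed_T : IsClosed T := by
  have hN : IsClosed (Set.range ((↑) : ℕ → ℝ)) := Nat.isClosedEmbedding_coe_real.isClosed_range
  have h1 : IsClosed {w : ℝ × ℝ | 1 ≤ w.1} := isClosed_le continuous_const continuous_fst
  have h2 : IsClosed {w : ℝ × ℝ | w.2 = r w.1} :=
    isClosed_eq continuous_snd (continuous_r.comp continuous_fst)
  have h3 : IsClosed {w : ℝ × ℝ | w.2 ≤ r w.1} :=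
    isClosed_le continuous_snd (continuous_r.comp continuous_fst)
  have h4 : IsClosed {w : ℝ × ℝ | ∃ n : ℕ, w.1 = n} := by
    have : {w : ℝ × ℝ | ∃ n : ℕ, w.1 = n} = Prod.fst ⁻¹' (Set.range ((↑) : ℕ → ℝ)) := by
      ext w; simp [eq_comm]
    rw [this]; exact hN.preimage continuous_fst
  exact h1.inter (h2.union (h4.inter h3))

/-- the continuum -/
def X : Set (ℝ × ℝ) :=
  {z | (0 ≤ z.1 ∧ z.1 ≤ 2 ∧ 0 ≤ z.2 ∧ z.2 ≤ 2) ∧ (z.2 = 0 ∨ (z.1 / z.2, z.1) ∈ T)}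

theorem isClosed_X : IsClosed X := by
  apply IsSeqClosed.isClosed
  intro u z hu hz
  have h1 : Tendsto (fun k => (u k).1) atTop (𝓝 z.1) := (continuous_fst.tendsto z).comp hz
  have h2 : Tendsto (fun k => (u k).2) atTop (𝓝 z.2) := (continuous_snd.tendsto z).comp hz
  refine ⟨⟨ge_of_tendsto' h1 fun k => (hu k).1.1, le_of_tendsto' h1 fun k => (hu k).1.2.1,
    ge_of_tendsto' h2 fun k => (hu k).1.2.2.1, le_of_tendsto' h2 fun k => (hu k).1.2.2.2⟩, ?_⟩
  by_cases hz2 : z.2 = 0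
  · exact Or.inl hz2
  right
  have h3 : Tendsto (fun k => ((u k).1 / (u k).2, (u k).1)) atTop (𝓝 (z.1 / z.2, z.1)) :=
    (h1.div h2 hz2).prodMk_nhds h1
  apply isClosed_T.mem_of_tendsto h3
  filter_upwards [h2.eventually_ne hz2] with k hk
  exact (hu k).2.resolve_left hk

theorem isCompact_X : IsCompact X := by
  have h : X ⊆ Set.Icc ((0 : ℝ), (0 : ℝ)) ((2 : ℝ), (2 : ℝ)) := by
    rintro z ⟨⟨h1, h2, h3, h4⟩, -⟩
    exact ⟨⟨h1, h3⟩, ⟨h2, h4⟩⟩
  exact isCompact_Icc.of_isClosed_subset isClosed_X h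

theorem mem_X {ρ φ : ℝ} (hφ : 1 ≤ φ) (h0 : 0 ≤ ρ) (hρ : ρ ≤ r φ)
    (h : ρ = r φ ∨ ∃ n : ℕ, φ = n) : (ρ, ρ / φ) ∈ X := by
  have hφ0 : 0 < φ := by linarith
  have hr := r_le_two φ
  refine ⟨⟨h0, by simpa using hρ.trans hr, by positivity, ?_⟩, ?_⟩
  · show ρ / φ ≤ 2
    rw [div_le_iff₀ hφ0]; nlinarith
  · rcases h0.eq_or_lt with h0 | h0
    · left; simp [← h0]
    · right
      have : ρ / (ρ / φ) = φ := by field_simp
      show (ρ / (ρ / φ), ρ) ∈ T
      rw [this]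
      exact ⟨hφ, h.imp id fun h => ⟨h, hρ⟩⟩

theorem mem_X_zero {x : ℝ} (h0 : 0 ≤ x) (h1 : x ≤ 2) : (x, (0 : ℝ)) ∈ X :=
  ⟨⟨h0, h1, le_rfl, by norm_num⟩, Or.inl rfl⟩

theorem structure_X {z : ℝ × ℝ} (hz : z ∈ X) :
    (0 ≤ z.1 ∧ z.1 ≤ 2 ∧ z.2 = 0) ∨
      (∃ ρ φ : ℝ, 1 ≤ φ ∧ 0 < ρ ∧ ρ ≤ r φ ∧ (ρ = r φ ∨ ∃ n : ℕ, φ = n) ∧ z = (ρ, ρ / φ)) := by
  obtain ⟨⟨h1, h2, h3, h4⟩, h5⟩ := hz
  by_cases hz2 : z.2 = 0
  · exact Or.inl ⟨h1, h2, hz2⟩
  · right
    have hz2' : 0 < z.2 := lt_of_le_of_ne h3 (Ne.symm hz2)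
    obtain ⟨h6, h7⟩ := h5.resolve_left hz2
    simp only at h6 h7
    have hz1 : 0 < z.1 := by
      have := (le_div_iff₀ hz2').mp h6
      linarith
    refine ⟨z.1, z.1 / z.2, h6, hz1, ?_, ?_, ?_⟩
    · rcases h7 with h7 | h7
      · exact h7.le
      · exact h7.2
    · exact h7.imp id fun h => h.1
    · ext
      · rfl
      · show z.2 = z.1 / (z.1 / z.2)
        field_simp

/-- the curve, extended to the whole line -/
noncomputable def q (φ : ℝ) : ℝ × ℝ := (r φ, r φ / max φ 1)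

theorem q_mem {φ : ℝ} (h : 1 ≤ φ) : q φ ∈ X := by
  have := mem_X h (by have := one_le_r φ; linarith) le_rfl (Or.inl rfl)
  unfold q; rwa [max_eq_left h]

theorem q_lip : LipschitzWith 9 q := by
  apply LipschitzWith.of_dist_le_mul
  intro φ ψ
  rw [Prod.dist_eq]
  have h0 : 0 ≤ |φ - ψ| := abs_nonneg _
  have h1 : dist (q φ).1 (q ψ).1 ≤ 7 * |φ - ψ| := r_lip φ ψ
  have hφ : (0 : ℝ) < max φ 1 := by positivity
  have hψ : (0 : ℝ) < max ψ 1 := by positivity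
  have h2 : dist (q φ).2 (q ψ).2 ≤ 9 * |φ - ψ| := by
    show |r φ / max φ 1 - r ψ / max ψ 1| ≤ _
    have e : r φ / max φ 1 - r ψ / max ψ 1 =
        (r φ - r ψ) / max φ 1 + r ψ * ((max ψ 1 - max φ 1) / (max φ 1 * max ψ 1)) := by
      field_simp; ring
    rw [e]
    refine (abs_add_le _ _).trans ?_
    have a1 : |(r φ - r ψ) / max φ 1| ≤ 7 * |φ - ψ| := by
      rw [abs_div, abs_of_pos hφ]
      apply (div_le_self (abs_nonneg _) (le_max_right _ _)).trans (r_lip φ ψ)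
    have a2 : |r ψ * ((max ψ 1 - max φ 1) / (max φ 1 * max ψ 1))| ≤ 2 * |φ - ψ| := by
      rw [abs_mul, abs_div, abs_of_pos (show (0 : ℝ) < r ψ by have := one_le_r ψ; linarith),
        abs_of_pos (mul_pos hφ hψ)]
      have b1 : |max ψ 1 - max φ 1| ≤ |φ - ψ| := by
        have := abs_max_sub_max_le_abs ψ φ 1
        rwa [abs_sub_comm ψ φ] at this
      have b2 : |max ψ 1 - max φ 1| / (max φ 1 * max ψ 1) ≤ |φ - ψ| := by
        refine (div_le_self (abs_nonneg _) ?_).trans b1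
        have c1 : (1 : ℝ) ≤ max φ 1 := le_max_right _ _
        have c2 : (1 : ℝ) ≤ max ψ 1 := le_max_right _ _
        nlinarith
      have b3 : 0 ≤ |max ψ 1 - max φ 1| / (max φ 1 * max ψ 1) := by positivity
      have := r_le_two ψ
      have := one_le_r ψ
      nlinarith
    linarith
  have h3 : dist φ ψ = |φ - ψ| := rfl
  rw [h3]
  apply max_le
  · refine h1.trans ?_
    show 7 * |φ - ψ| ≤ ((9 : NNReal) : ℝ) * |φ - ψ|
    norm_num; linarith
  · refine h2.trans ?_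
    show 9 * |φ - ψ| ≤ ((9 : NNReal) : ℝ) * |φ - ψ|
    norm_num

end Pool.Agent.U331.UP
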