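import Pool.Agent.U331.UP.Basic

/-!
# Uniformly Lipschitz paths in the continuum
-/

set_option autoImplicit false

namespace Pool.Agent.U331.UP

open Set Filter Topology

/-- the clamp to the unit interval -/
noncomputable def c (s : ℝ) : ℝ := max 0 (min s 1)

theorem c_nonneg (s : ℝ) : 0 ≤ c s := le_max_left _ _

theorem c_le_one (s : ℝ) : c s ≤ 1 := max_le zero_le_one (min_le_right _ _)

theorem c_of_nonpos {s : ℝ} (h : s ≤ 0) : c s = 0 := by
  unfold c; exact max_eq_left ((min_le_left _ _).trans h)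

theorem c_of_one_le {s : ℝ} (h : 1 ≤ s) : c s = 1 := by
  unfold c; rw [min_eq_right h]; norm_num

theorem c_of_mem {s : ℝ} (h0 : 0 ≤ s) (h1 : s ≤ 1) : c s = s := by
  unfold c; rw [min_eq_left h1, max_eq_right h0]

theorem c_lip (s t : ℝ) : |c s - c t| ≤ |s - t| := by
  unfold c
  have h1 := abs_max_sub_max_le_max 0 (min s 1) 0 (min t 1)
  have h2 := abs_min_sub_min_le_max s 1 t 1
  rw [sub_self, abs_zero] at h1 h2
  have h3 : max 0 |min s 1 - min t 1| = |min s 1 - min t 1| := max_eq_right (abs_nonneg _)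
  have h4 : max |s - t| 0 = |s - t| := max_eq_left (abs_nonneg _)
  rw [h3] at h1
  rw [h4] at h2
  exact h1.trans h2

theorem norm_le_two {z : ℝ × ℝ} (hz : z ∈ X) : ‖z‖ ≤ 2 := by
  obtain ⟨⟨h1, h2, h3, h4⟩, -⟩ := hz
  rw [Prod.norm_def, Real.norm_eq_abs, Real.norm_eq_abs, abs_of_nonneg h1, abs_of_nonneg h3]
  exact max_le h2 h4

/-- a Lipschitz path from the origin -/
def Good (z : ℝ × ℝ) : Prop :=
  ∃ f : ℝ → ℝ × ℝ, (∀ s t, ‖f s - f t‖ ≤ 22 * |s - t|) ∧ f 0 = 0 ∧ f 1 = z ∧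
    ∀ t, 0 ≤ t → t ≤ 1 → f t ∈ X

theorem smul_lip {z : ℝ × ℝ} (hz : ‖z‖ ≤ 2) (s t : ℝ) : ‖s • z - t • z‖ ≤ 2 * |s - t| := by
  rw [← sub_smul, norm_smul, Real.norm_eq_abs]
  nlinarith [abs_nonneg (s - t)]

theorem good {z : ℝ × ℝ} (hz : z ∈ X) : Good z := by
  rcases structure_X hz with ⟨h1, h2, h3⟩ | ⟨ρ, φ, hφ, h0, hρ, h | ⟨n, hn⟩, rfl⟩
  · refine ⟨fun t => t • z, fun s t => ?_, by simp, by simp, fun t ht0 ht1 => ?_⟩
    · refine (smul_lip (norm_le_two hz) s t).trans ?_
      nlinarith [abs_nonneg (s - t)]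
    · have : t • z = (t * z.1, (0 : ℝ)) := by
        ext
        · simp
        · simp [h3]
      show t • z ∈ X
      rw [this]
      exact mem_X_zero (mul_nonneg ht0 h1) (by nlinarith)
  · -- a point of the curve
    set N : ℕ := ⌊φ⌋₊ with hN
    have hN1 : (N : ℝ) ≤ φ := Nat.floor_le (by linarith)
    have hN2 : φ < N + 1 := Nat.lt_floor_add_one φ
    have hN3 : (1 : ℝ) ≤ N := by exact_mod_cast (Nat.one_le_floor_iff φ).mpr hφ
    have hqN : ‖q N‖ ≤ 2 := norm_le_two (q_mem hN3)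
    refine ⟨fun t => c (2 * t) • q N + (q (N + c (2 * t - 1) * (φ - N)) - q N), fun s t => ?_,
      ?_, ?_, fun t ht0 ht1 => ?_⟩
    · have e : (c (2 * s) • q N + (q (N + c (2 * s - 1) * (φ - N)) - q N)) -
          (c (2 * t) • q N + (q (N + c (2 * t - 1) * (φ - N)) - q N)) =
          (c (2 * s) • q N - c (2 * t) • q N) +
          (q (N + c (2 * s - 1) * (φ - N)) - q (N + c (2 * t - 1) * (φ - N))) := by abel
      show ‖(c (2 * s) • q N + (q (N + c (2 * s - 1) * (φ - N)) - q N)) -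
          (c (2 * t) • q N + (q (N + c (2 * t - 1) * (φ - N)) - q N))‖ ≤ _
      rw [e]
      refine (norm_add_le _ _).trans ?_
      have a1 := smul_lip hqN (c (2 * s)) (c (2 * t))
      have a2 := c_lip (2 * s) (2 * t)
      have a3 : |2 * s - 2 * t| = 2 * |s - t| := by
        rw [← mul_sub, abs_mul, abs_two]
      have a4 := q_lip.dist_le_mul (N + c (2 * s - 1) * (φ - N)) (N + c (2 * t - 1) * (φ - N))
      rw [dist_eq_norm, Real.dist_eq] at a4
      have a5 : |(N + c (2 * s - 1) * (φ - N)) - (N + c (2 * t - 1) * (φ - N))| =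
          |c (2 * s - 1) - c (2 * t - 1)| * |φ - N| := by
        rw [← abs_mul]; congr 1; ring
      have a6 := c_lip (2 * s - 1) (2 * t - 1)
      have a7 : |(2 * s - 1) - (2 * t - 1)| = 2 * |s - t| := by
        rw [show (2 * s - 1) - (2 * t - 1) = 2 * (s - t) by ring, abs_mul, abs_two]
      have a8 : |φ - N| ≤ 1 := by rw [abs_of_nonneg (by linarith)]; linarith
      have a9 : |c (2 * s - 1) - c (2 * t - 1)| * |φ - N| ≤ 2 * |s - t| := by
        rw [a7] at a6
        have := abs_nonneg (c (2 * s - 1) - c (2 * t - 1))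
        nlinarith
      rw [a5] at a4
      have a10 : ((9 : NNReal) : ℝ) = 9 := by norm_num
      rw [a10] at a4
      have := abs_nonneg (s - t)
      nlinarith
    · have h1 : c (2 * 0) = 0 := c_of_nonpos (by norm_num)
      have h2 : c (2 * 0 - 1) = 0 := c_of_nonpos (by norm_num)
      simp only [h1, h2]; simp
    · have h1 : c (2 * 1) = 1 := c_of_one_le (by norm_num)
      have h2 : c (2 * 1 - 1) = 1 := c_of_one_le (by norm_num)
      simp only [h1, h2]
      rw [one_smul, one_mul, add_sub_cancel, add_sub_cancel]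
      unfold q; rw [max_eq_left hφ, h]
    · show c (2 * t) • q N + (q (N + c (2 * t - 1) * (φ - N)) - q N) ∈ X
      rcases le_total (2 * t) 1 with ht | ht
      · rw [c_of_nonpos (by linarith : 2 * t - 1 ≤ 0), c_of_mem (by linarith) ht]
        simp only [zero_mul, add_zero, sub_self]
        have : (2 * t) • q N = ((2 * t) * r N, (2 * t) * r N / N) := by
          unfold q
          rw [max_eq_left hN3]
          ext
          · simp
          · simp; ring
        rw [this]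
        have hr := one_le_r N
        exact mem_X hN3 (by positivity) (by nlinarith) (Or.inr ⟨N, rfl⟩)
      · rw [c_of_one_le ht, one_smul, add_sub_cancel]
        apply q_mem
        have := mul_nonneg (c_nonneg (2 * t - 1)) (sub_nonneg.mpr hN1)
        linarith
  · -- a point of a blade
    subst hn
    refine ⟨fun t => t • (ρ, ρ / (n : ℝ)), fun s t => ?_, by simp, by simp, fun t ht0 ht1 => ?_⟩
    · refine (smul_lip (norm_le_two hz) s t).trans ?_
      nlinarith [abs_nonneg (s - t)]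
    · have : t • (ρ, ρ / (n : ℝ)) = (t * ρ, t * ρ / n) := by
        ext
        · simp
        · simp; ring
      show t • (ρ, ρ / (n : ℝ)) ∈ X
      rw [this]
      exact mem_X hφ (by positivity) (by nlinarith) (Or.inr ⟨n, rfl⟩)

/-- a Lipschitz path between two points of the continuum through a third one -/
theorem exists_path (a b z : X) : ∃ p : Path a b,
    (∀ s t : unitInterval, dist (p s) (p t) ≤ 264 * |(s : ℝ) - t|) ∧ z ∈ Set.range ⇑p := by
  obtain ⟨fa, la, a0, a1, am⟩ := good a.2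
  obtain ⟨fb, lb, b0, b1, bm⟩ := good b.2
  obtain ⟨fz, lz, z0, z1, zm⟩ := good z.2
  let g : ℝ → ℝ × ℝ := fun s => fa (c (1 - 4 * s)) +
    fz (c (min (4 * s - 1) (3 - 4 * s))) + fb (c (4 * s - 3))
  have hg : ∀ s t, ‖g s - g t‖ ≤ 264 * |s - t| := by
    intro s t
    have e : g s - g t = (fa (c (1 - 4 * s)) - fa (c (1 - 4 * t))) +
      (fz (c (min (4 * s - 1) (3 - 4 * s))) - fz (c (min (4 * t - 1) (3 - 4 * t)))) +
      (fb (c (4 * s - 3)) - fb (c (4 * t - 3))) := by
      simp only [g]; abel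
    rw [e]
    refine (norm_add_le _ _).trans ?_
    have h1 := norm_add_le (fa (c (1 - 4 * s)) - fa (c (1 - 4 * t)))
      (fz (c (min (4 * s - 1) (3 - 4 * s))) - fz (c (min (4 * t - 1) (3 - 4 * t))))
    have h2 := la (c (1 - 4 * s)) (c (1 - 4 * t))
    have h3 := lz (c (min (4 * s - 1) (3 - 4 * s))) (c (min (4 * t - 1) (3 - 4 * t)))
    have h4 := lb (c (4 * s - 3)) (c (4 * t - 3))
    have h5 := c_lip (1 - 4 * s) (1 - 4 * t)
    have h6 := c_lip (min (4 * s - 1) (3 - 4 * s)) (min (4 * t - 1) (3 - 4 * t))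
    have h7 := c_lip (4 * s - 3) (4 * t - 3)
    have e1 : |1 - 4 * s - (1 - 4 * t)| = 4 * |s - t| := by
      rw [show 1 - 4 * s - (1 - 4 * t) = -(4 * (s - t)) by ring, abs_neg, abs_mul]; norm_num
    have e2 : |4 * s - 3 - (4 * t - 3)| = 4 * |s - t| := by
      rw [show 4 * s - 3 - (4 * t - 3) = 4 * (s - t) by ring, abs_mul]; norm_num
    have e3 := abs_min_sub_min_le_max (4 * s - 1) (3 - 4 * s) (4 * t - 1) (3 - 4 * t)
    have e4 : |4 * s - 1 - (4 * t - 1)| = 4 * |s - t| := by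
      rw [show 4 * s - 1 - (4 * t - 1) = 4 * (s - t) by ring, abs_mul]; norm_num
    have e5 : |3 - 4 * s - (3 - 4 * t)| = 4 * |s - t| := by
      rw [show 3 - 4 * s - (3 - 4 * t) = -(4 * (s - t)) by ring, abs_neg, abs_mul]; norm_num
    rw [e4, e5, max_self] at e3
    rw [e1] at h5
    rw [e2] at h7
    have := abs_nonneg (s - t)
    linarith
  have hmem : ∀ s, 0 ≤ s → s ≤ 1 → g s ∈ X := by
    intro s hs0 hs1
    simp only [g]
    rcases le_total (4 * s) 1 with h | h
    · rw [c_of_nonpos ((min_le_left _ _).trans (by linarith : 4 * s - 1 ≤ 0)),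
        c_of_nonpos (by linarith : 4 * s - 3 ≤ 0), z0, b0, add_zero, add_zero]
      exact am _ (c_nonneg _) (c_le_one _)
    · rcases le_total (4 * s) 3 with h' | h'
      · rw [c_of_nonpos (by linarith : 1 - 4 * s ≤ 0),
          c_of_nonpos (by linarith : 4 * s - 3 ≤ 0), a0, b0, add_zero, zero_add]
        exact zm _ (c_nonneg _) (c_le_one _)
      · rw [c_of_nonpos (by linarith : 1 - 4 * s ≤ 0),
          c_of_nonpos ((min_le_right _ _).trans (by linarith : 3 - 4 * s ≤ 0)), a0, z0, add_zero,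
          zero_add]
        exact bm _ (c_nonneg _) (c_le_one _)
  have hgc : Continuous g := by
    have : LipschitzWith 264 g := LipschitzWith.of_dist_le_mul fun s t => by
      rw [dist_eq_norm, Real.dist_eq]; exact_mod_cast hg s t
    exact this.continuous
  let p : Path a b :=
    { toFun := fun t => ⟨g t, hmem t t.2.1 t.2.2⟩
      continuous_toFun := (hgc.comp continuous_subtype_val).subtype_mk _
      source' := by
        apply Subtype.ext
        show g (0 : ℝ) = a
        simp only [g, mul_zero, sub_zero, zero_sub]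
        rw [c_of_one_le le_rfl, c_of_nonpos ((min_le_left _ _).trans (by norm_num : (-1 : ℝ) ≤ 0)),
          c_of_nonpos (by norm_num : (-3 : ℝ) ≤ 0), a1, z0, b0, add_zero, add_zero]
      target' := by
        apply Subtype.ext
        show g (1 : ℝ) = b
        simp only [g, mul_one]
        rw [c_of_nonpos (by norm_num : (1 - 4 : ℝ) ≤ 0),
          c_of_nonpos ((min_le_right _ _).trans (by norm_num : (3 - 4 : ℝ) ≤ 0)),
          c_of_one_le (by norm_num : (1 : ℝ) ≤ 4 - 3), a0, z0, b1, add_zero, zero_add] }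
  refine ⟨p, fun s t => ?_, ⟨⟨1 / 2, by norm_num, by norm_num⟩, ?_⟩⟩
  · show dist (g s) (g t) ≤ _
    rw [dist_eq_norm]; exact hg s t
  · apply Subtype.ext
    show g (1 / 2) = z
    simp only [g]
    rw [c_of_nonpos (by norm_num : (1 - 4 * (1 / 2) : ℝ) ≤ 0),
      c_of_one_le (by norm_num : (1 : ℝ) ≤ min (4 * (1 / 2) - 1) (3 - 4 * (1 / 2))),
      c_of_nonpos (by norm_num : (4 * (1 / 2) - 3 : ℝ) ≤ 0), a0, z1, b0, add_zero, zero_add]

theorem uniform_family {Y : Type} [MetricSpace Y] {a b : Y} (K : ℝ) (hK : 0 < K) (ε : ℝ)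
    (hε : 0 < ε) :
    ∃ n : ℕ, ∀ p ∈ {p : Path a b | ∀ s t : unitInterval, dist (p s) (p t) ≤ K * |(s : ℝ) - t|},
      ∃ t : Fin (n + 1) → unitInterval, t 0 = 0 ∧ t (Fin.last n) = 1 ∧ StrictMono t ∧
        ∀ i : Fin n, Metric.diam (⇑p '' Set.Icc (t i.castSucc) (t i.succ)) ≤ ε := by
  obtain ⟨n, hn⟩ := exists_nat_gt (K / ε)
  have hn0 : (0 : ℝ) < n := lt_trans (by positivity) hn
  have hn1 : K / n ≤ ε := by
    rw [div_le_iff₀ hn0]
    rw [div_lt_iff₀ hε] at hn
    linarith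
  refine ⟨n, fun p hp => ?_⟩
  refine ⟨fun i => ⟨(i : ℕ) / n, by positivity, ?_⟩, ?_, ?_, ?_, ?_⟩
  · rw [div_le_one hn0]
    exact_mod_cast Nat.lt_succ_iff.mp i.2
  · apply Subtype.ext; simp
  · apply Subtype.ext
    show ((Fin.last n : ℕ) : ℝ) / n = 1
    rw [Fin.val_last, div_self hn0.ne']
  · intro i j hij
    show ((i : ℕ) : ℝ) / n < ((j : ℕ) : ℝ) / n
    apply div_lt_div_of_pos_right _ hn0
    exact_mod_cast hij
  · intro i
    apply Metric.diam_le_of_forall_dist_le hε.le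
    rintro _ ⟨x, hx, rfl⟩ _ ⟨y, hy, rfl⟩
    refine (hp x y).trans ?_
    have h1 : ((i : ℕ) : ℝ) / n ≤ x := hx.1
    have h2 : (x : ℝ) ≤ ((i : ℕ) + 1 : ℕ) / n := hx.2
    have h3 : ((i : ℕ) : ℝ) / n ≤ y := hy.1
    have h4 : (y : ℝ) ≤ ((i : ℕ) + 1 : ℕ) / n := hy.2
    have h5 : (((i : ℕ) + 1 : ℕ) : ℝ) / n = ((i : ℕ) : ℝ) / n + 1 / n := by push_cast; ring
    rw [h5] at h2 h4
    have h6 : |(x : ℝ) - y| ≤ 1 / n := by rw [abs_le]; constructor <;> linarith
    calc K * |(x : ℝ) - y| ≤ K * (1 / n) := by gcongr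
      _ = K / n := by ring
      _ ≤ ε := hn1

instance : CompactSpace X := isCompact_iff_compactSpace.mp isCompact_X

theorem zero_mem : ((0 : ℝ), (0 : ℝ)) ∈ X := mem_X_zero le_rfl (by norm_num)

instance : PathConnectedSpace X where
  nonempty := ⟨⟨_, zero_mem⟩⟩
  joined a b := by
    obtain ⟨p, -, -⟩ := exists_path a b a
    exact ⟨p⟩

theorem uniformly_pathwise_connected (a b : X) : ∃ P : Set (Path a b),
    (∀ ε : ℝ, ε > 0 → ∃ n : ℕ, ∀ p ∈ P, ∃ t : Fin (n + 1) → unitInterval,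
      t 0 = 0 ∧ t (Fin.last n) = 1 ∧ StrictMono t ∧
      ∀ i : Fin n, Metric.diam (⇑p '' Set.Icc (t i.castSucc) (t i.succ)) ≤ ε) ∧
    (⋃ p ∈ P, Set.range ⇑p) = Set.univ := by
  refine ⟨_, fun ε hε => uniform_family 264 (by norm_num) ε hε, ?_⟩
  apply Set.eq_univ_of_forall
  intro z
  obtain ⟨p, hp, hz⟩ := exists_path a b z
  exact Set.mem_iUnion₂.mpr ⟨p, hp, hz⟩

end Pool.Agent.U331.UP
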